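import Pool.Agent.Lib_helper8.SDF.Iface

/-!
The three uses of the dense theorem.
-/

namespace Pool.Agent.SDF

open Finset Function

universe u

theorem ncard_in_le {G : Type u} [AddCommGroup G] (A : Finset G) (H : AddSubgroup G) (x : G)
    (hfin : (H : Set G).Finite) : {a ∈ (A : Set G) | a - x ∈ H}.ncard ≤ Nat.card H := by
  classical
  have h4 : Nat.card H = (H : Set G).ncard := by
    rw [← Nat.card_coe_set_eq]
    rfl
  rw [h4]
  have h5 : ((fun a => a - x) '' {a ∈ (A : Set G) | a - x ∈ H}).ncard =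
      {a ∈ (A : Set G) | a - x ∈ H}.ncard :=
    Set.ncard_image_of_injective _ (sub_left_injective)
  rw [← h5]
  apply Set.ncard_le_ncard _ hfin
  rintro _ ⟨a, ha, rfl⟩
  exact ha.2

theorem sup_eq_of_mem {G : Type u} [AddCommGroup G] {H : AddSubgroup G} {x : G} (hx : x ∈ H) :
    H ⊔ AddSubgroup.zmultiples x = H := by
  rw [sup_eq_left, AddSubgroup.zmultiples_le]
  exact hx

/-- one kind of vertices: full conclusion -/
theorem KOrd.seqble {G : Type u} [AddCommGroup G] {A : Finset G} {V : AddSubgroup G} {ν N : ℕ}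
    {η : ℝ} {L : Fin ν → Finset (Fin N)} {y : ℕ → G} (h : KOrd A V ν N η L y)
    (hno : ∀ κ κ' : Fin ν, κ < κ' →
      ¬ ((∑ l ∈ range κ, y l) - ∑ l ∈ range κ', y l ∈ V ∧ ¬ Disjoint (L κ) (L κ'))) :
    Seqble A := by
  obtain ⟨a, ha, hr, b, _, _, _, _, _, hs⟩ := h
  refine ⟨a, ha, hr, fun i j hij hj hne heq => ?_⟩
  obtain ⟨κ, κ', hk, _, _, _, _, h1⟩ := hs i j hij hj hne heq
  exact hno κ κ' hk h1

/-- **Use 1**: the subgroup `V` has more elements than `B`. -/
theorem use1 (hD : DenseKinds.{u}) (D0 : ℕ) (ε : ℝ) (hε : 0 < ε) (β : ℝ) (hβ : 0 < β) :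
    ∃ τ : ℝ, 0 < τ ∧ ∃ K : ℕ, ∀ {G : Type u} [AddCommGroup G] (A : Finset G)
      (H : AddSubgroup G) (x : G),
      (0 : G) ∉ A → K ≤ A.card → (H : Set G).Finite → Nat.card H ≤ 10000 * A.card →
      (∃ j : ℕ, 1 ≤ j ∧ j ≤ D0 ∧ j • x ∈ H) →
      ({a ∈ (A : Set G) | a - x ∉ H}.ncard : ℝ) ≤ τ * A.card →
      (∀ (H' : AddSubgroup G) (z : G), H' < H →
        β * A.card < ({a ∈ (A : Set G) | a - z ∉ H'}.ncard : ℝ)) →
      (1 + ε) * ({a ∈ (A : Set G) | a - x ∈ H}.ncard : ℝ) ≤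
        Nat.card (H ⊔ AddSubgroup.zmultiples x : AddSubgroup G) →
      Seqble A := by
  obtain ⟨R, hR⟩ := exists_nat_gt (4 * (1 + ε) / ε)
  set η : ℝ := ε / (4 * (1 + ε)) with hη
  have h1ε : 0 < 1 + ε := by linarith
  have hη0 : 0 < η := by positivity
  have hη1 : η < 1 := by
    rw [hη, div_lt_one (by positivity)]
    linarith
  have hR0 : (0 : ℝ) < R := lt_trans (by positivity) hR
  have hRη : 1 / (R : ℝ) < η := by
    rw [hη, div_lt_div_iff₀ hR0 (by positivity)]
    rw [div_lt_iff₀ hε] at hR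
    linarith
  -- labels `Fin (2 * R)`, the two labels 0 and 1 are reserved
  have hRn : 0 < R := by exact_mod_cast hR0
  obtain ⟨τ, hτ, K, hK⟩ := hD 1 (2 * R) D0 β η hβ hη0
    (fun _ => univ.filter fun l : Fin (2 * R) => 2 ≤ (l : ℕ)) (fun _ => 1) (fun _ => one_pos)
    (by simp) (by intro κ l hl; exact (mem_filter.1 hl).2)
  refine ⟨τ, hτ, K, fun {G} _ A H x h0 hKA hfin hcard hord hout hsub hV => ?_⟩
  have hL : ((univ.filter fun l : Fin (2 * R) => 2 ≤ (l : ℕ)).card : ℝ) = 2 * R - 2 := by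
    have h1 : (univ.filter fun l : Fin (2 * R) => 2 ≤ (l : ℕ)).card =
        (Ico 2 (2 * R)).card := by
      refine Finset.card_bij (fun l _ => (l : ℕ)) ?_ ?_ ?_
      · intro l hl
        have := (mem_filter.1 hl).2
        rw [mem_Ico]
        exact ⟨this, l.2⟩
      · intro a _ b _ h
        exact Fin.ext h
      · intro c hc
        rw [mem_Ico] at hc
        exact ⟨⟨c, hc.2⟩, mem_filter.2 ⟨mem_univ _, hc.1⟩, rfl⟩
    rw [h1, Nat.card_Ico]
    have : 2 ≤ 2 * R := by omega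
    push_cast [Nat.cast_sub this]
    ring
  refine (hK A H x (fun _ => 0) h0 hKA hfin hcard hord hout hsub (fun _ => Or.inl rfl)
    (fun l l' hl => absurd rfl hl) (by intros; simp) ?_).seqble ?_
  · intro κ
    rw [hL, one_mul]
    have h3 : (2 * (R : ℝ) - 2) / ((2 * R : ℕ) : ℝ) = 1 - 1 / R := by
      push_cast
      field_simp
    rw [h3]
    set B : ℝ := ({a ∈ (A : Set G) | a - x ∈ H}.ncard : ℝ) with hB
    have hB0 : 0 ≤ B := by rw [hB]; positivity
    have h4 : 1 ≤ (1 - η) * (1 - 1 / (R : ℝ)) * (1 + ε) := by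
      have h5 : (1 - η) * (1 - η) ≤ (1 - η) * (1 - 1 / (R : ℝ)) :=
        mul_le_mul_of_nonneg_left (by linarith) (by linarith)
      have h6 : η * (4 * (1 + ε)) = ε := by
        rw [hη]
        field_simp
      have h7 : 1 ≤ (1 - η) * (1 - η) * (1 + ε) := by
        nlinarith [mul_pos hη0 hη0]
      exact h7.trans (mul_le_mul_of_nonneg_right h5 h1ε.le)
    calc B = 1 * B := (one_mul _).symm
      _ ≤ (1 - η) * (1 - 1 / (R : ℝ)) * (1 + ε) * B := mul_le_mul_of_nonneg_right h4 hB0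
      _ = (1 - η) * (1 - 1 / (R : ℝ)) * ((1 + ε) * B) := by ring
      _ ≤ _ := mul_le_mul_of_nonneg_left hV (by
          apply mul_nonneg (by linarith)
          linarith)
  · intro κ κ' hk
    exact absurd hk (by
      have h1 := κ.2
      have h2 := κ'.2
      rw [Fin.lt_def]
      omega)

/-- **Use 2**: `B` may fill `V = H`, but one element of `A` is outside. -/
theorem use2 (hD : DenseKinds.{u}) (β : ℝ) (hβ : 0 < β) :
    ∃ τ : ℝ, 0 < τ ∧ ∃ K : ℕ, ∀ {G : Type u} [AddCommGroup G] (A : Finset G)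
      (H : AddSubgroup G) (x y : G),
      (0 : G) ∉ A → K ≤ A.card → (H : Set G).Finite → Nat.card H ≤ 10000 * A.card →
      x ∈ H → y ∈ A → y ∉ H →
      ({a ∈ (A : Set G) | a - x ∉ H}.ncard : ℝ) ≤ τ * A.card →
      (∀ (H' : AddSubgroup G) (z : G), H' < H →
        β * A.card < ({a ∈ (A : Set G) | a - z ∉ H'}.ncard : ℝ)) →
      Seqble A := by
  obtain ⟨τ, hτ, K, hK⟩ := hD 2 8 1 β (1 / 4) hβ (by norm_num)
    (fun _ => univ.filter fun l : Fin 8 => 2 ≤ (l : ℕ)) (fun _ => 1 / 2) (fun _ => by norm_num)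
    (by simp) (by intro κ l hl; exact (mem_filter.1 hl).2)
  refine ⟨τ, hτ, K, fun {G} _ A H x y h0 hKA hfin hcard hx hyA hyH hout hsub => ?_⟩
  have hL : ((univ.filter fun l : Fin 8 => 2 ≤ (l : ℕ)).card : ℝ) = 6 := by
    have : (univ.filter fun l : Fin 8 => 2 ≤ (l : ℕ)).card = 6 := by decide
    rw [this]
    norm_num
  have hV : H ⊔ AddSubgroup.zmultiples x = H := sup_eq_of_mem hx
  have hy0 : y ≠ 0 := fun h => hyH (h ▸ H.zero_mem)
  refine (hK A H x (fun l => if l = 0 then y else 0) h0 hKA hfin hcard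
    ⟨1, le_rfl, le_rfl, by rwa [one_smul]⟩ hout hsub ?_ ?_ ?_ ?_).seqble ?_
  · intro l
    by_cases hl : l = 0
    · right
      simp only [hl, if_true]
      refine ⟨hyA, fun h => hyH ?_⟩
      have := H.add_mem h hx
      rwa [sub_add_cancel] at this
    · left
      simp [hl]
  · intro l l' hl hll
    by_cases h1 : l = 0
    · subst h1
      by_contra h2
      have h3 : l' ≠ 0 := fun h => h2 h.symm
      simp only [if_true, h3, if_false] at hll
      exact hy0 hll
    · simp [h1] at hl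
  · have hC : ∀ κ : ℕ, ∑ l ∈ range κ, (if l = 0 then y else 0) = if κ = 0 then 0 else y := by
      intro κ
      rcases Nat.eq_zero_or_pos κ with h | h
      · simp [h]
      · rw [Finset.sum_ite_eq', if_pos (Finset.mem_range.2 h), if_neg (by omega)]
    intro κ _ κ' _ h
    rw [hV, hC, hC] at h
    rw [hC, hC]
    by_cases h1 : κ = 0
    · by_cases h2 : κ' = 0
      · rw [h1, h2]
      · rw [if_pos h1, if_neg h2, zero_sub, neg_mem_iff] at h
        exact absurd h hyH
    · by_cases h2 : κ' = 0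
      · rw [if_neg h1, if_pos h2, sub_zero] at h
        exact absurd h hyH
      · rw [if_neg h1, if_neg h2]
  · intro κ
    rw [hL, hV]
    have h1 := ncard_in_le A H x hfin
    have h2 : ({a ∈ (A : Set G) | a - x ∈ H}.ncard : ℝ) ≤ Nat.card H := by exact_mod_cast h1
    have h3 : (0 : ℝ) ≤ Nat.card H := by positivity
    generalize ({a ∈ (A : Set G) | a - x ∈ H}.ncard : ℝ) = B at h2 ⊢
    norm_num
    linarith
  · intro κ κ' hk h
    have hk0 : (κ : ℕ) = 0 := by
      have h1 := κ'.2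
      rw [Fin.lt_def] at hk
      omega
    have hk1 : (κ' : ℕ) = 1 := by
      have h1 := κ'.2
      rw [Fin.lt_def] at hk
      omega
    rw [hk0, hk1, hV] at h
    simp at h
    exact hyH h.1

/-- **Use 3**: weak sequencings of sets that fill a subgroup. -/
theorem use3 (hD : DenseKinds.{u}) (ε : ℝ) (hε : 0 < ε) (β : ℝ) (hβ : 0 < β) :
    ∃ τ : ℝ, 0 < τ ∧ ∃ K : ℕ, ∀ {G : Type u} [AddCommGroup G] (A : Finset G)
      (H : AddSubgroup G) (x : G),
      (0 : G) ∉ A → K ≤ A.card → (H : Set G).Finite → Nat.card H ≤ 10000 * A.card →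
      x ∈ H → (Nat.card H : ℝ) ≤ 2 * A.card →
      ({a ∈ (A : Set G) | a - x ∉ H}.ncard : ℝ) ≤ τ * A.card →
      (∀ (H' : AddSubgroup G) (z : G), H' < H →
        β * A.card < ({a ∈ (A : Set G) | a - z ∉ H'}.ncard : ℝ)) →
      ∃ a : Fin A.card → G, Injective a ∧ Set.range a = (A : Set G) ∧
        ∀ i j : ℕ, i < j → j ≤ A.card → ¬ (i = 0 ∧ j = A.card) →
          (j : ℝ) ≤ i + (1 - ε) * A.card → psum a i ≠ psum a j := by
  obtain ⟨R, hR⟩ := exists_nat_gt (max (8 / ε) 8)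
  have hR8 : (8 : ℝ) < R := lt_of_le_of_lt (le_max_right _ _) hR
  have hRε : 8 / ε < R := lt_of_le_of_lt (le_max_left _ _) hR
  have hR0 : (0 : ℝ) < R := by linarith
  have hRn : 8 < R := by exact_mod_cast hR8
  -- `γ = 1 / R`, `N = 8 R` labels
  set γ : ℝ := 1 / R with hγ
  have hγ0 : 0 < γ := by positivity
  have hγ8 : γ < 1 / 8 := by
    rw [hγ, div_lt_div_iff₀ hR0 (by norm_num)]
    linarith
  have hγε : 8 * γ < ε := by
    rw [div_lt_iff₀ hε] at hRε
    rw [hγ, mul_one_div, div_lt_iff₀ hR0]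
    linarith
  let LA : Finset (Fin (8 * R)) := univ.filter fun l => 2 ≤ (l : ℕ) ∧ (l : ℕ) < 14
  let LB : Finset (Fin (8 * R)) := univ.filter fun l => 14 ≤ (l : ℕ)
  have hLA : LA.card = 12 := by
    have h1 : LA.card = (Ico 2 14).card := by
      refine Finset.card_bij (fun l _ => (l : ℕ)) ?_ ?_ ?_
      · intro l hl
        have := (mem_filter.1 hl).2
        rw [mem_Ico]
        exact this
      · intro a _ b _ h
        exact Fin.ext h
      · intro c hc
        rw [mem_Ico] at hc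
        exact ⟨⟨c, by omega⟩, mem_filter.2 ⟨mem_univ _, hc⟩, rfl⟩
    rw [h1, Nat.card_Ico]
  have hLB : LB.card = 8 * R - 14 := by
    have h1 : LB.card = (Ico 14 (8 * R)).card := by
      refine Finset.card_bij (fun l _ => (l : ℕ)) ?_ ?_ ?_
      · intro l hl
        have := (mem_filter.1 hl).2
        rw [mem_Ico]
        exact ⟨this, l.2⟩
      · intro a _ b _ h
        exact Fin.ext h
      · intro c hc
        rw [mem_Ico] at hc
        exact ⟨⟨c, hc.2⟩, mem_filter.2 ⟨mem_univ _, hc.1⟩, rfl⟩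
    rw [h1, Nat.card_Ico]
  have hdA : ((LA.card : ℕ) : ℝ) / ((8 * R : ℕ) : ℝ) = 3 / 2 * γ := by
    rw [hLA, hγ]
    push_cast
    field_simp
    norm_num
  have hdA' : (((LA.card : ℕ) : ℝ) + 1) / ((8 * R : ℕ) : ℝ) = 13 / 8 * γ := by
    rw [hLA, hγ]
    push_cast
    field_simp
    norm_num
  have hdB : ((LB.card : ℕ) : ℝ) / ((8 * R : ℕ) : ℝ) = 1 - 7 / 4 * γ := by
    rw [hLB, hγ]
    have : 14 ≤ 8 * R := by omega
    push_cast [Nat.cast_sub this]
    field_simp
    ring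
  let L : Fin 3 → Finset (Fin (8 * R)) := fun κ => if κ = 1 then LB else LA
  let f : Fin 3 → ℝ := fun κ => if κ = 1 then 1 - 2 * γ else γ
  have hf0 : ∀ κ, 0 < f κ := by
    intro κ
    simp only [f]
    split_ifs
    · linarith
    · exact hγ0
  have hf1 : ∑ κ, f κ = 1 := by
    rw [Fin.sum_univ_three]
    simp only [f]
    simp
    ring
  have hL2 : ∀ κ, ∀ l ∈ L κ, 2 ≤ (l : ℕ) := by
    intro κ l hl
    simp only [L] at hl
    split_ifs at hl
    · have := (mem_filter.1 hl).2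
      omega
    · exact (mem_filter.1 hl).2.1
  have hdisj : Disjoint LA LB := by
    rw [Finset.disjoint_left]
    intro l h1 h2
    have h3 := (mem_filter.1 h1).2.2
    have h4 := (mem_filter.1 h2).2
    omega
  obtain ⟨τ, hτ, K, hK⟩ := hD 3 (8 * R) 1 β (γ / 4) hβ (by positivity) L f hf0 hf1 hL2
  refine ⟨τ, hτ, K, fun {G} _ A H x h0 hKA hfin hcard hx hHA hout hsub => ?_⟩
  have hV : H ⊔ AddSubgroup.zmultiples x = H := sup_eq_of_mem hx
  obtain ⟨a, ha, hr, b, hb0, hbm, hbk, hbl, hbt, hs⟩ := hK A H x (fun _ => 0) h0 hKA hfin hcard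
    ⟨1, le_rfl, le_rfl, by rwa [one_smul]⟩ hout hsub (fun _ => Or.inl rfl)
    (fun l l' hl => absurd rfl hl) (by intros; simp) (by
      intro κ
      rw [hV]
      have h1 := ncard_in_le A H x hfin
      have h2 : ({a ∈ (A : Set G) | a - x ∈ H}.ncard : ℝ) ≤ Nat.card H := by exact_mod_cast h1
      set B : ℝ := ({a ∈ (A : Set G) | a - x ∈ H}.ncard : ℝ) with hB
      have h3 : (0 : ℝ) ≤ Nat.card H := by positivity
      have h4 : f κ ≤ (1 - γ / 4) * (((L κ).card : ℝ) / ((8 * R : ℕ) : ℝ)) := by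
        by_cases hκ : κ = 1
        · simp only [f, L, hκ, if_true]
          rw [hdB]
          nlinarith [mul_pos hγ0 hγ0]
        · simp only [f, L, hκ, if_false]
          rw [hdA]
          nlinarith
      have h5 : 0 ≤ (1 - γ / 4) * (((L κ).card : ℝ) / ((8 * R : ℕ) : ℝ)) := (hf0 κ).le.trans h4
      calc f κ * B ≤ f κ * Nat.card H := mul_le_mul_of_nonneg_left h2 (hf0 κ).le
        _ ≤ _ := mul_le_mul_of_nonneg_right h4 h3)
  rw [hV] at hbl hbt hs
  refine ⟨a, ha, hr, fun i j hij hj hne hdist heq => ?_⟩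
  obtain ⟨κ, κ', hk, h1, h2, h3, h4, _, h6⟩ := hs i j hij hj hne heq
  -- only the pair of kinds `0, 2` shares classes
  have hκ : κ = 0 ∧ κ' = 2 := by
    by_contra hcon
    apply h6
    have hcases : (κ = 1 ∧ κ' ≠ 1) ∨ (κ ≠ 1 ∧ κ' = 1) := by
      have e1 := κ.2
      have e2 := κ'.2
      rw [Fin.lt_def] at hk
      have e3 : ¬ ((κ : ℕ) = 0 ∧ (κ' : ℕ) = 2) := fun h =>
        hcon ⟨Fin.ext h.1, Fin.ext h.2⟩
      by_cases e4 : (κ : ℕ) = 1
      · left
        refine ⟨Fin.ext e4, fun e5 => ?_⟩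
        have := congrArg Fin.val e5
        simp at this
        omega
      · right
        refine ⟨fun e5 => e4 (by rw [e5]; rfl), Fin.ext ?_⟩
        show (κ' : ℕ) = 1
        omega
    rcases hcases with ⟨e1, e2⟩ | ⟨e1, e2⟩
    · simp only [L, e1, e2, if_true, if_false]
      exact hdisj.symm
    · simp only [L, e1, e2, if_true, if_false]
      exact hdisj
  obtain ⟨rfl, rfl⟩ := hκ
  have g1 := hbl 0
  have g2 := hbl 2
  have e0 : ((0 : Fin 3) : ℕ) = 0 := rfl
  have e2 : ((2 : Fin 3) : ℕ) = 2 := rfl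
  rw [e0] at g1 h2
  rw [e2] at g2 h3
  have l0 : L 0 = LA := by simp [L]
  have l2 : L 2 = LA := by simp [L]
  rw [l0, hdA', hb0] at g1
  rw [l2, hdA'] at g2
  have i1 : (i : ℝ) < b (0 + 1) := by exact_mod_cast h2
  have j1 : (b 2 : ℝ) < j := by exact_mod_cast h3
  have hH0 : (0 : ℝ) ≤ Nat.card H := by positivity
  have hA0 : (0 : ℝ) ≤ A.card := by positivity
  have g3 : (b (2 + 1) : ℝ) = b 3 := rfl
  push_cast at g1 g2
  have g4 : (A.card : ℝ) ≤ b 2 + (13 / 8 * γ + γ / 2) * Nat.card H := by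
    nlinarith
  have g5 : γ * (Nat.card H : ℝ) ≤ γ * (2 * A.card) := mul_le_mul_of_nonneg_left hHA hγ0.le
  have g6 : 8 * γ * A.card ≤ ε * A.card := mul_le_mul_of_nonneg_right hγε.le hA0
  nlinarith

end Pool.Agent.SDF
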