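import Pool.Agent.Lib_helper8.SDF.Fin
import Pool.Agent.Lib_helper8.SDN.DKf

/-!
Final theorem of the projects SPQ, SLD, SDN in one formula (MP_b4ec45_co).
-/

namespace Pool.Agent.SDF

open Finset Function

universe u

/-- **Final theorem** in one formula. -/
theorem asy_main (ε : ℝ) (hε : 0 < ε) :
    ∃ K : ℕ, ∀ {G : Type u} [AddCommGroup G] (A : Finset G), (0 : G) ∉ A → K ≤ A.card →
      ∃ a : Fin A.card → G, Function.Injective a ∧ Set.range a = (A : Set G) ∧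
        ∀ i j : ℕ, i < j → j ≤ A.card → ¬ (i = 0 ∧ j = A.card) →
          ((∃ V : AddSubgroup G, (V : Set G).Finite ∧ (Nat.card V : ℝ) ≤ (1 + ε) * A.card ∧
            (A : Set G) ⊆ V) → (j : ℝ) ≤ i + (1 - ε) * A.card) →
          ∑ m : Fin A.card with m.val < i, a m ≠ ∑ m : Fin A.card with m.val < j, a m := by
  obtain ⟨K, hK⟩ := fin_main1 SDN.dense_kinds.{u} (min ε 1) (lt_min hε one_pos)
    (min_le_right _ _)
  refine ⟨K, fun {G} _ A h0 hKA => ?_⟩
  obtain ⟨h1, h2⟩ := hK A h0 hKA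
  have hc : (0 : ℝ) ≤ A.card := Nat.cast_nonneg _
  by_cases hV : ∃ V : AddSubgroup G, (V : Set G).Finite ∧ (Nat.card V : ℝ) ≤ (1 + ε) * A.card ∧
            (A : Set G) ⊆ V
  · obtain ⟨a, ha, hr, hs⟩ := h2
    refine ⟨a, ha, hr, fun i j hij hj hne h => hs i j hij hj hne ((h hV).trans ?_)⟩
    have h3 : (1 - ε) * (A.card : ℝ) ≤ (1 - min ε 1) * A.card :=
      mul_le_mul_of_nonneg_right (by linarith [min_le_left ε 1]) hc
    linarith
  · rcases h1 with h1 | ⟨V, hVf, hVc, hAV⟩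
    · obtain ⟨a, ha, hr, hs⟩ := h1
      exact ⟨a, ha, hr, fun i j hij hj hne _ => hs i j hij hj hne⟩
    · exact absurd ⟨V, hVf, hVc.trans (mul_le_mul_of_nonneg_right
        (by linarith [min_le_left ε 1]) hc), hAV⟩ hV

end Pool.Agent.SDF
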