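import Pool.Agent.Lib_helper8.SDF.Uses
import Pool.Agent.Lib_helper26.SLD.Main
import Pool.Agent.Lib_helper8.SPQ.Main
import Pool.Agent.Lib_helper26.SLD.ST

/-!
Final case distinction of the projects SPQ, SLD, SDN.
-/

namespace Pool.Agent.SDF

open Finset Function

universe u

/-- weak part of the conclusion -/
def WeakSeq {G : Type u} [AddCommGroup G] (ε : ℝ) (A : Finset G) : Prop :=
  ∃ a : Fin A.card → G, Injective a ∧ Set.range a = (A : Set G) ∧
    ∀ i j : ℕ, i < j → j ≤ A.card → ¬ (i = 0 ∧ j = A.card) →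
      (j : ℝ) ≤ i + (1 - ε) * A.card → psum a i ≠ psum a j

theorem Seqble.weak {G : Type u} [AddCommGroup G] {A : Finset G} (h : Seqble A) (ε : ℝ) :
    WeakSeq ε A := by
  obtain ⟨a, ha, hr, hs⟩ := h
  exact ⟨a, ha, hr, fun i j hij hj hne _ => hs i j hij hj hne⟩

theorem two_mul_card_le {G : Type u} [AddCommGroup G] (H : AddSubgroup G) (x : G)
    (hfin : (H : Set G).Finite) (j : ℕ) (hj : 1 ≤ j) (hjx : j • x ∈ H) (hx : x ∉ H) :
    Nat.card H * 2 ≤ Nat.card (H ⊔ AddSubgroup.zmultiples x : AddSubgroup G) := by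
  have hlt : H < H ⊔ AddSubgroup.zmultiples x := by
    refine lt_of_le_of_ne le_sup_left fun h => hx ?_
    rw [h]
    exact AddSubgroup.mem_sup_right (AddSubgroup.mem_zmultiples x)
  have hVf : ((H ⊔ AddSubgroup.zmultiples x : AddSubgroup G) : Set G).Finite := by
    have : Finite H := hfin
    let f : Fin j × H → G := fun p => (p.1 : ℕ) • x + (p.2 : G)
    have hsub : ((H ⊔ AddSubgroup.zmultiples x : AddSubgroup G) : Set G) ⊆ Set.range f := by
      intro z hz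
      rw [SetLike.mem_coe, AddSubgroup.mem_sup] at hz
      obtain ⟨h, hh, y, hy, rfl⟩ := hz
      obtain ⟨n, rfl⟩ := AddSubgroup.mem_zmultiples_iff.1 hy
      have hj' : (j : ℤ) ≠ 0 := by omega
      have h1 := Int.emod_nonneg n hj'
      have h2 := Int.emod_lt_of_pos n (show (0 : ℤ) < j by omega)
      refine ⟨(⟨(n % j).toNat, by omega⟩, ⟨h + (n / j) • (j • x), H.add_mem hh
        (H.zsmul_mem hjx _)⟩), ?_⟩
      show ((n % j).toNat) • x + (h + (n / j) • (j • x)) = h + n • x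
      have h3 : ((n % j).toNat) • x = (n % j) • x := by
        conv_rhs => rw [← Int.toNat_of_nonneg h1]
        rw [natCast_zsmul]
      have h4 : (n / j) • (j • x) = ((j : ℤ) * (n / j)) • x := by
        rw [mul_comm, mul_zsmul, natCast_zsmul]
      rw [h3, h4]
      have h5 : n • x = (n % j) • x + ((j : ℤ) * (n / j)) • x := by
        rw [← add_zsmul, Int.emod_add_mul_ediv]
      rw [h5]
      abel
    exact (Set.finite_range f).subset hsub
  exact SLD.st_half hVf hlt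

/-- **Final theorem** (modulo the dense theorem). -/
theorem fin_main1 (hD : DenseKinds.{u}) (ε : ℝ) (hε : 0 < ε) (hε1 : ε ≤ 1) :
    ∃ K : ℕ, ∀ {G : Type u} [AddCommGroup G] (A : Finset G), (0 : G) ∉ A → K ≤ A.card →
      (Seqble A ∨ ∃ V : AddSubgroup G, (V : Set G).Finite ∧
        (Nat.card V : ℝ) ≤ (1 + ε) * A.card ∧ (A : Set G) ⊆ V) ∧ WeakSeq ε A := by
  choose τ1 hτ1 K1 hK1 using fun β : {β : ℝ // 0 < β} =>
    use1 hD (10 ^ 10) (ε / 2) (by positivity) β.1 β.2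
  choose τ2 hτ2 K2 hK2 using fun β : {β : ℝ // 0 < β} => use2 hD β.1 β.2
  choose τ3 hτ3 K3 hK3 using fun β : {β : ℝ // 0 < β} => use3 hD ε hε β.1 β.2
  let g : ℕ → {β : ℝ // 0 < β} := fun n => Nat.rec ⟨1 / 2, by norm_num⟩
    (fun _ β => ⟨min (min (1 / 2) (1 / 10 ^ 10)) (min (τ1 β) (min (τ2 β) (τ3 β))),
      lt_min (lt_min (by norm_num) (by norm_num)) (lt_min (hτ1 β) (lt_min (hτ2 β) (hτ3 β)))⟩) n
  have hgs : ∀ n, (g (n + 1)).1 =
      min (min (1 / 2) (1 / 10 ^ 10)) (min (τ1 (g n)) (min (τ2 (g n)) (τ3 (g n)))) :=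
    fun n => rfl
  have hghalf : ∀ n, (g n).1 ≤ 1 / 2 := by
    intro n
    cases n with
    | zero => exact le_rfl
    | succ n => rw [hgs]; exact (min_le_left _ _).trans (min_le_left _ _)
  have hg10 : ∀ n, (g (n + 1)).1 ≤ 1 / 10 ^ 10 := fun n => by
    rw [hgs]; exact (min_le_left _ _).trans (min_le_right _ _)
  have hg1 : ∀ n, (g (n + 1)).1 ≤ τ1 (g n) := fun n => by
    rw [hgs]; exact (min_le_right _ _).trans (min_le_left _ _)
  have hg2 : ∀ n, (g (n + 1)).1 ≤ τ2 (g n) := fun n => by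
    rw [hgs]
    exact (min_le_right _ _).trans ((min_le_right _ _).trans (min_le_left _ _))
  have hg3 : ∀ n, (g (n + 1)).1 ≤ τ3 (g n) := fun n => by
    rw [hgs]
    exact (min_le_right _ _).trans ((min_le_right _ _).trans (min_le_right _ _))
  obtain ⟨Ka, ha⟩ := SPQ.sparse_main
  obtain ⟨Kb, hb⟩ := SLD.large_order
  obtain ⟨Kc, hc⟩ := exists_nat_gt ((1 / (g 15).1) ^ (10 : ℕ))
  refine ⟨(Ka + Kb + Kc + 1) + ∑ i ∈ range 15, (K1 (g i) + K2 (g i) + K3 (g i)),
    fun {G} _ A h0 hK => ?_⟩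
  have hKi : ∀ i < 15, K1 (g i) + K2 (g i) + K3 (g i) ≤ A.card := by
    intro i hi
    have h1 : K1 (g i) + K2 (g i) + K3 (g i) ≤
        ∑ i ∈ range 15, (K1 (g i) + K2 (g i) + K3 (g i)) :=
      Finset.single_le_sum (f := fun i => K1 (g i) + K2 (g i) + K3 (g i))
        (fun _ _ => Nat.zero_le _) (mem_range.2 hi)
    omega
  have hA0 : 0 < A.card := by omega
  have hA0' : (0 : ℝ) < A.card := by exact_mod_cast hA0
  suffices hmain : (Seqble A) ∨ ((∃ V : AddSubgroup G, (V : Set G).Finite ∧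
        (Nat.card V : ℝ) ≤ (1 + ε) * A.card ∧ (A : Set G) ⊆ V) ∧ WeakSeq ε A) by
    rcases hmain with h | h
    · exact ⟨Or.inl h, h.weak ε⟩
    · exact ⟨Or.inr h.1, h.2⟩
  by_cases hsp : ∀ (H : AddSubgroup G) (x : G), (H : Set G).Finite →
      Nat.card H ≤ 10000 * A.card →
      (A.card : ℝ) ^ (9 / 10 : ℝ) < ({a ∈ (A : Set G) | a - x ∉ H}.ncard : ℝ)
  · exact Or.inl (ha A h0 (by omega) hsp)
  push Not at hsp
  obtain ⟨H₀, x₀, hfin₀, hcard₀, hout₀⟩ := hsp
  have hout₁ : ({a ∈ (A : Set G) | a - x₀ ∉ H₀}.ncard : ℝ) ≤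
      (g 15).1 * A.card := by
    refine hout₀.trans ?_
    set γ : ℝ := (g 15).1 with hγ
    have hγ0 : 0 < γ := (g 15).2
    have h1 : (1 / γ) ^ (10 : ℕ) ≤ A.card := by
      have h2 : Kc ≤ A.card := by omega
      have h3 : (Kc : ℝ) ≤ A.card := by exact_mod_cast h2
      linarith
    have h2 : 1 / γ ≤ (A.card : ℝ) ^ (1 / 10 : ℝ) := by
      have h3 : ((1 / γ) ^ (10 : ℕ)) ^ (1 / 10 : ℝ) ≤ (A.card : ℝ) ^ (1 / 10 : ℝ) :=
        Real.rpow_le_rpow (by positivity) h1 (by norm_num)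
      have h4 : ((1 / γ) ^ (10 : ℕ)) ^ (1 / 10 : ℝ) = 1 / γ := by
        rw [← Real.rpow_natCast, ← Real.rpow_mul (by positivity)]
        norm_num
      rwa [h4] at h3
    have h3 : (A.card : ℝ) ^ (9 / 10 : ℝ) * (A.card : ℝ) ^ (1 / 10 : ℝ) = A.card := by
      rw [← Real.rpow_add hA0']
      norm_num
    have h4 : 0 < (A.card : ℝ) ^ (9 / 10 : ℝ) := Real.rpow_pos_of_pos hA0' _
    have h5 : 1 ≤ γ * (A.card : ℝ) ^ (1 / 10 : ℝ) := by
      rw [div_le_iff₀ hγ0] at h2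
      linarith
    calc (A.card : ℝ) ^ (9 / 10 : ℝ) = (A.card : ℝ) ^ (9 / 10 : ℝ) * 1 := (mul_one _).symm
      _ ≤ (A.card : ℝ) ^ (9 / 10 : ℝ) * (γ * (A.card : ℝ) ^ (1 / 10 : ℝ)) := by gcongr
      _ = γ * ((A.card : ℝ) ^ (9 / 10 : ℝ) * (A.card : ℝ) ^ (1 / 10 : ℝ)) := by ring
      _ = γ * A.card := by rw [h3]
  obtain ⟨i, hi, H, x, hHH, hout, hsub⟩ := SLD.shrink A hA0 (fun n => (g n).1)
    hghalf H₀ x₀ hfin₀ hcard₀ hout₁
  have hfin : (H : Set G).Finite := hfin₀.subset hHH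
  have hcard : Nat.card H ≤ 10000 * A.card := by
    refine le_trans ?_ hcard₀
    have : Finite H₀ := hfin₀
    exact Nat.card_le_card_of_injective (AddSubgroup.inclusion hHH)
      (AddSubgroup.inclusion_injective hHH)
  have hKi' := hKi i hi
  have hout10 : 10 ^ 10 * {a ∈ (A : Set G) | a - x ∉ H}.ncard ≤ A.card := by
    have h1 : ({a ∈ (A : Set G) | a - x ∉ H}.ncard : ℝ) ≤ 1 / 10 ^ 10 * A.card :=
      hout.trans (mul_le_mul_of_nonneg_right (hg10 i) hA0'.le)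
    have h2 : (10 : ℝ) ^ 10 * ({a ∈ (A : Set G) | a - x ∉ H}.ncard : ℝ) ≤ A.card := by
      norm_num at h1 ⊢
      linarith
    exact_mod_cast h2
  by_cases hord : ∀ j : ℕ, 1 ≤ j → j ≤ 10 ^ 10 → j • x ∉ H
  · exact Or.inl (hb A H x h0 (by omega) hord hout10)
  push Not at hord
  obtain ⟨j, hj1, hj2, hjx⟩ := hord
  have hB : ({a ∈ (A : Set G) | a - x ∈ H}.ncard : ℝ) ≤ Nat.card H := by
    exact_mod_cast ncard_in_le A H x hfin
  have hBA : ({a ∈ (A : Set G) | a - x ∈ H}.ncard : ℝ) ≤ A.card := by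
    have h1 : {a ∈ (A : Set G) | a - x ∈ H}.ncard ≤ (A : Set G).ncard :=
      Set.ncard_le_ncard (fun a ha => ha.1) A.finite_toSet
    rw [Set.ncard_coe_finset] at h1
    exact_mod_cast h1
  have hH0 : (0 : ℝ) ≤ Nat.card H := by positivity
  have hB0 : (0 : ℝ) ≤ ({a ∈ (A : Set G) | a - x ∈ H}.ncard : ℝ) := by positivity
  by_cases hx : x ∈ H
  · by_cases hAH : (A : Set G) ⊆ H
    · by_cases hbig : (1 + ε / 2) * ({a ∈ (A : Set G) | a - x ∈ H}.ncard : ℝ) ≤ Nat.card H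
      · left
        refine hK1 (g i) A H x h0 (by omega) hfin hcard ⟨j, hj1, hj2, hjx⟩
          (hout.trans (mul_le_mul_of_nonneg_right (hg1 i) hA0'.le)) hsub ?_
        rw [sup_eq_of_mem hx]
        exact hbig
      · right
        push Not at hbig
        have h1 : (1 + ε / 2) * ({a ∈ (A : Set G) | a - x ∈ H}.ncard : ℝ) ≤
            (1 + ε / 2) * A.card := mul_le_mul_of_nonneg_left hBA (by linarith)
        have h2 : (1 + ε / 2) * (A.card : ℝ) ≤ (1 + ε) * A.card :=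
          mul_le_mul_of_nonneg_right (by linarith) hA0'.le
        have h3 : (1 + ε) * (A.card : ℝ) ≤ 2 * A.card :=
          mul_le_mul_of_nonneg_right (by linarith) hA0'.le
        refine ⟨⟨H, hfin, by linarith, hAH⟩, ?_⟩
        exact hK3 (g i) A H x h0 (by omega) hfin hcard hx (by linarith)
          (hout.trans (mul_le_mul_of_nonneg_right (hg3 i) hA0'.le)) hsub
    · left
      rw [Set.not_subset] at hAH
      obtain ⟨y, hyA, hyH⟩ := hAH
      exact hK2 (g i) A H x y h0 (by omega) hfin hcard hx hyA hyH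
        (hout.trans (mul_le_mul_of_nonneg_right (hg2 i) hA0'.le)) hsub
  · left
    refine hK1 (g i) A H x h0 (by omega) hfin hcard ⟨j, hj1, hj2, hjx⟩
      (hout.trans (mul_le_mul_of_nonneg_right (hg1 i) hA0'.le)) hsub ?_
    have h1 := two_mul_card_le H x hfin j hj1 hjx hx
    have h2 : (Nat.card H : ℝ) * 2 ≤
        Nat.card (H ⊔ AddSubgroup.zmultiples x : AddSubgroup G) := by exact_mod_cast h1
    refine le_trans ?_ h2
    nlinarith

/-- **Final theorem** (modulo the dense theorem). -/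
theorem fin_main (hD : DenseKinds.{u}) (ε : ℝ) (hε : 0 < ε) :
    ∃ K : ℕ, ∀ {G : Type u} [AddCommGroup G] (A : Finset G), (0 : G) ∉ A → K ≤ A.card →
      ((∀ V : AddSubgroup G, (V : Set G).Finite → (Nat.card V : ℝ) ≤ (1 + ε) * A.card →
        ¬ (A : Set G) ⊆ V) → Seqble A) ∧
      (∀ t : ℕ, (t : ℝ) ≤ (1 - ε) * A.card →
        ∃ a : Fin A.card → G, Injective a ∧ Set.range a = (A : Set G) ∧
          ∀ i j : ℕ, i < j → j ≤ A.card → j ≤ i + t → psum a i ≠ psum a j) := by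
  obtain ⟨K, hK⟩ := fin_main1 hD (min ε 1) (lt_min hε one_pos) (min_le_right _ _)
  refine ⟨K + 1, fun {G} _ A h0 hKA => ?_⟩
  obtain ⟨h1, a, ha, hr, hs⟩ := hK A h0 (by omega)
  have hA0 : (0 : ℝ) < A.card := by
    have : 0 < A.card := by omega
    exact_mod_cast this
  constructor
  · intro hV
    rcases h1 with h1 | ⟨V, hVf, hVc, hAV⟩
    · exact h1
    · exact absurd hAV (hV V hVf (hVc.trans (mul_le_mul_of_nonneg_right
        (by linarith [min_le_left ε 1]) hA0.le)))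
  · intro t ht
    refine ⟨a, ha, hr, fun i j hij hj hjt => ?_⟩
    have h2 : (1 - ε) * (A.card : ℝ) ≤ (1 - min ε 1) * A.card :=
      mul_le_mul_of_nonneg_right (by linarith [min_le_left ε 1]) hA0.le
    have h3 : (j : ℝ) ≤ i + t := by exact_mod_cast hjt
    refine hs i j hij hj ?_ (by linarith)
    rintro ⟨rfl, rfl⟩
    have h4 : (1 - ε) * (A.card : ℝ) < A.card := by nlinarith
    push_cast at h3
    linarith

end Pool.Agent.SDF
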