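import Mathlib

/-!
Interface of the dense theorem of the project SDN (MP_b4ec45_co): orderings with several kinds of
vertex classes.
-/

namespace Pool.Agent.SDF

open Finset Function

universe u

variable {G : Type u} [AddCommGroup G]

/-- partial sums of an enumeration -/
noncomputable def psum {k : ℕ} (a : Fin k → G) (i : ℕ) : G :=
  ∑ m : Fin k with m.val < i, a m

/-- `A` is sequenceable (full conclusion, the only possible coincidence being `s_0 = s_k`). -/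
def Seqble (A : Finset G) : Prop :=
  ∃ a : Fin A.card → G, Injective a ∧ Set.range a = (A : Set G) ∧
    ∀ i j : ℕ, i < j → j ≤ A.card → ¬ (i = 0 ∧ j = A.card) → psum a i ≠ psum a j

/-- conclusion of the dense theorem for the kinds `Fin ν`, classes `L`, connecting elements `y`,
subgroup `V`. -/
def KOrd (A : Finset G) (V : AddSubgroup G) (ν N : ℕ) (η : ℝ) (L : Fin ν → Finset (Fin N))
    (y : ℕ → G) : Prop :=
  ∃ a : Fin A.card → G, Injective a ∧ Set.range a = (A : Set G) ∧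
    ∃ b : ℕ → ℕ, b 0 = 0 ∧ (∀ κ < ν, b κ ≤ b (κ + 1)) ∧ b ν ≤ A.card ∧
      (∀ κ : Fin ν, (b (κ + 1) : ℝ) ≤ b κ + ((((L κ).card : ℝ) + 1) / N + η) * Nat.card V) ∧
      ((A.card : ℝ) ≤ b ν + η * Nat.card V) ∧
      ∀ i j : ℕ, i < j → j ≤ A.card → ¬ (i = 0 ∧ j = A.card) → psum a i = psum a j →
        ∃ κ κ' : Fin ν, κ < κ' ∧ b κ < i ∧ i < b (κ + 1) ∧ b κ' < j ∧ j < b (κ' + 1) ∧
          (∑ l ∈ range κ, y l) - ∑ l ∈ range κ', y l ∈ V ∧ ¬ Disjoint (L κ) (L κ')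

/-- The dense theorem. -/
def DenseKinds : Prop :=
  ∀ (ν N D0 : ℕ) (β η : ℝ), 0 < β → 0 < η →
    ∀ (L : Fin ν → Finset (Fin N)) (f : Fin ν → ℝ), (∀ κ, 0 < f κ) → ∑ κ, f κ = 1 →
    (∀ κ, ∀ l ∈ L κ, 2 ≤ (l : ℕ)) →
    ∃ τ : ℝ, 0 < τ ∧ ∃ K : ℕ, ∀ {G : Type u} [AddCommGroup G] (A : Finset G)
      (H : AddSubgroup G) (x : G) (y : ℕ → G),
      (0 : G) ∉ A → K ≤ A.card → (H : Set G).Finite → Nat.card H ≤ 10000 * A.card →
      (∃ j : ℕ, 1 ≤ j ∧ j ≤ D0 ∧ j • x ∈ H) →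
      ({a ∈ (A : Set G) | a - x ∉ H}.ncard : ℝ) ≤ τ * A.card →
      (∀ (H' : AddSubgroup G) (z : G), H' < H →
        β * A.card < ({a ∈ (A : Set G) | a - z ∉ H'}.ncard : ℝ)) →
      (∀ l, y l = 0 ∨ (y l ∈ A ∧ y l - x ∉ H)) →
      (∀ l l', y l ≠ 0 → y l = y l' → l = l') →
      (∀ κ ≤ ν, ∀ κ' ≤ ν, (∑ l ∈ range κ, y l) - ∑ l ∈ range κ', y l ∈
        H ⊔ AddSubgroup.zmultiples x → ∑ l ∈ range κ, y l = ∑ l ∈ range κ', y l) →
      (∀ κ : Fin ν, f κ * ({a ∈ (A : Set G) | a - x ∈ H}.ncard : ℝ) ≤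
        (1 - η) * (((L κ).card : ℝ) / N) * Nat.card (H ⊔ AddSubgroup.zmultiples x :
          AddSubgroup G)) →
      KOrd A (H ⊔ AddSubgroup.zmultiples x) ν N η L y

end Pool.Agent.SDF
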